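import Pool.Agent.N41.RM.Pts

/-!
# Analytic rank one: the square of the Heegner index from the numbers of points

Let `E` be an elliptic curve over the number field `K` (in the problem: over `ℚ`, and `K` imaginary
quadratic), `S` a finite set of primes of `K` containing the bad ones, and `F` a continuation of the
L-function `L_S(E/K, s)` without the Euler factors at `S` along the segment `[1, 3/2]`; it exists by
modularity.  In the problem the order at `s = 1` is one, and by Gross and Zagier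
`√D_K L'(E/K, 1) / (Ω R) = m / c²`, where `c` is the Manin constant and `m = [E(K) : ℤ y_K + E(K)_tors]²`
the square of the index of the Heegner point.  So the leading coefficient of `F` at `1` is
`(m / c²) B`, `B = Ω R ∏_{v ∈ S} P_v(q_v^{-1}) / √D_K`.  The identity `(*)` is the equality of the `p`-adic
valuations of `m / c²` and `t = Tam #Ш / #E(K)_tors²`.

Let `k_{v,e}` be the extension of degree `e` of the residue field `k_v`, `ω(t) = exp(iγt) / Γ(1 + t)` with
`γ > π/2`, and

`W_γ(T) = ∑_{v ∉ S} ∑_{e ≥ 1} log (#E(k_{v,e}) / q_v^e) (1/e) ∑_{e = k n} μ(k) ω(n log q_v / T)`,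

an absolutely convergent series: `exp W_γ(T)` is a regularised product of the numbers `#E(k_v) / q_v` and of
small powers of the other ones.  Then, without any hypothesis on zeros,

`N(T) = c² T exp(-Λ_γ - W_γ(T)) / B`, `Λ_γ = ∫_0^∞ (e^{-t} - ω(t)) dt / t`,

tends to `m` if (and only if) the order is one and the leading coefficient is `(m / c²) B`.  Therefore for
all large `T` the integer nearest to `Re N(T)` is `m`, and `(*)` holds for the prime `p` if and only if the
`p`-adic valuation of this integer, divided by `c²`, is that of `t` for all large `T`, if and only if this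
is so for arbitrarily large `T`.
-/

set_option autoImplicit false

open scoped Classical

namespace Pool.Agent.Results.MP_23455a_nt.IndexFromPointCounts

open NumberField IsDedekindDomain Filter Topology Polynomial
open scoped ArithmeticFunction.Moebius
open Pool.Agent.TH958.BV (cone)

section defs

variable {K : Type} [Field K] [NumberField K] {n : ℕ}

/-- `α_1, …, α_{2g}` are the eigenvalues of the geometric Frobenius at the prime `v` on the first
cohomology of the abelian variety `A` of dimension `g` defined by the homogeneous polynomials `X`: they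
are the zeros of a polynomial with integral coefficients, of absolute value `q_v^{1/2}`, and for every
finite extension `κ` of the residue field of `v`, of degree `e`, the number of the points of `A` with
coordinates in `κ` is `∏ (1 - α_j^e)`.  (`cone` is the number of the nonzero solutions of the
homogeneous equations, which is `#κ - 1` times the number of points.)  By Weil this holds at all primes
of good reduction. -/
def IsFrobenius (X : Set (MvPolynomial (Fin n) (𝓞 K))) (g : ℕ) (v : HeightOneSpectrum (𝓞 K))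
    (α : Fin (2 * g) → ℂ) : Prop :=
  (∃ P : ℤ[X], P.map (Int.castRingHom ℂ) = ∏ j, (Polynomial.X - Polynomial.C (α j))) ∧
    (∀ j, ‖α j‖ = √(Ideal.absNorm v.asIdeal)) ∧
    ∀ (κ : Type) [Field κ] [Finite κ] (φ : 𝓞 K →+* κ) (e : ℕ), RingHom.ker φ = v.asIdeal →
      Nat.card κ = Ideal.absNorm v.asIdeal ^ e →
      (cone X φ : ℂ) = ((Ideal.absNorm v.asIdeal : ℂ) ^ e - 1) * ∏ j, (1 - α j ^ e)

/-- The L-function `L(A, s) = ∏_{v ∉ S} ∏_j (1 - α_{v,j} q_v^{-s})⁻¹`. -/
noncomputable def LFun {N : ℕ} (S : Finset (HeightOneSpectrum (𝓞 K)))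
    (α : HeightOneSpectrum (𝓞 K) → Fin N → ℂ) (s : ℂ) : ℂ :=
  ∏' v : HeightOneSpectrum (𝓞 K), if v ∈ S then 1 else
    ∏ j, (1 - α v j * (Ideal.absNorm v.asIdeal : ℂ) ^ (-s))⁻¹

/-- `F` is a continuation of `L(A, s)` from `Re s > 3/2` along the real axis to `s = 1`, meromorphic at
all points of the segment `[1, 3/2]`. -/
def IsContinuation {N : ℕ} (S : Finset (HeightOneSpectrum (𝓞 K)))
    (α : HeightOneSpectrum (𝓞 K) → Fin N → ℂ) (F : ℂ → ℂ) : Prop :=
  (∀ x : ℝ, 1 ≤ x → x ≤ 3 / 2 → MeromorphicAt F (x : ℂ)) ∧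
    ∀ s : ℂ, 3 / 2 < s.re → F s = LFun S α s

/-- The residue field of the prime `v`. -/
noncomputable instance residueField (v : HeightOneSpectrum (𝓞 K)) : Field (𝓞 K ⧸ v.asIdeal) :=
  Pool.Agent.R409.RA.fieldQuot v

/-- The number of the points of the projective scheme defined by `X` with coordinates in the extension
of degree `e` of the residue field of `v`: the number of the nonzero solutions `u` of the homogeneous
equations in the algebraic closure of the residue field with `u_j^{q_v^e} = u_j` for all `j`, divided by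
`q_v^e - 1`. -/
noncomputable def points (X : Set (MvPolynomial (Fin n) (𝓞 K))) (v : HeightOneSpectrum (𝓞 K))
    (e : ℕ) : ℝ :=
  (Nat.card {u : Fin n → AlgebraicClosure (𝓞 K ⧸ v.asIdeal) // u ≠ 0 ∧
    (∀ j, u j ^ (Ideal.absNorm v.asIdeal ^ e) = u j) ∧
    ∀ f ∈ X, MvPolynomial.eval₂ ((algebraMap (𝓞 K ⧸ v.asIdeal)
      (AlgebraicClosure (𝓞 K ⧸ v.asIdeal))).comp (Ideal.Quotient.mk v.asIdeal)) u f = 0} : ℝ) /
    ((Ideal.absNorm v.asIdeal : ℝ) ^ e - 1)

/-- The weight `ω(t) = exp(iγt) / Γ(1 + t)`. -/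
noncomputable def om (γ t : ℝ) : ℂ :=
  Complex.exp ((γ * t : ℝ) * Complex.I) / (Real.Gamma (1 + t) : ℂ)

/-- The term of `W_γ(T)` for the prime `v = x.1` and the degree `e = x.2 + 1`:
`log (#A(k_{v,e}) / q_v^{g e}) (1/e) ∑_{e = k n} μ(k) ω(n log q_v / T)`, and `0` if `v ∈ S`. -/
noncomputable def ptTerm (X : Set (MvPolynomial (Fin n) (𝓞 K))) (g : ℕ)
    (S : Finset (HeightOneSpectrum (𝓞 K))) (γ T : ℝ) (x : HeightOneSpectrum (𝓞 K) × ℕ) : ℂ :=
  if x.1 ∈ S then 0 else
    (Real.log (points X x.1 (x.2 + 1) / (Ideal.absNorm x.1.asIdeal : ℝ) ^ (g * (x.2 + 1))) : ℂ) /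
      (x.2 + 1) * ∑ y ∈ (x.2 + 1).divisorsAntidiagonal,
        ((μ y.1 : ℤ) : ℂ) * om γ (y.2 * Real.log (Ideal.absNorm x.1.asIdeal : ℝ) / T)

/-- `W_γ(T)`. -/
noncomputable def ptSum (X : Set (MvPolynomial (Fin n) (𝓞 K))) (g : ℕ)
    (S : Finset (HeightOneSpectrum (𝓞 K))) (γ T : ℝ) : ℂ :=
  ∑' x : HeightOneSpectrum (𝓞 K) × ℕ, ptTerm X g S γ T x

/-- `Λ_γ = ∫_0^∞ (e^{-t} - e^{iγt} / Γ(1 + t)) dt / t`. -/
noncomputable def Lam (γ : ℝ) : ℂ := ∫ t in Set.Ioi (0 : ℝ),
  (Complex.exp (-(t : ℂ)) - Complex.exp ((γ * t : ℝ) * Complex.I) * ((Real.Gamma (1 + t))⁻¹ : ℝ)) / t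

/-- The number of the real zeros `> 1` of `F` minus the number of its real poles `> 1`, with
multiplicities (they are in `(1, 3/2]`). -/
noncomputable def excess (F : ℂ → ℂ) : ℤ :=
  ∑ᶠ σ ∈ Set.Ioi (1 : ℝ), (meromorphicOrderAt F (σ : ℂ)).untop₀

/-- `exp W_γ(T) / T^ρ`. -/
noncomputable def quot (X : Set (MvPolynomial (Fin n) (𝓞 K))) (g : ℕ)
    (S : Finset (HeightOneSpectrum (𝓞 K))) (γ : ℝ) (ρ : ℤ) (T : ℝ) : ℂ :=
  Complex.exp (ptSum X g S γ T) / (T : ℂ) ^ ρ

end defs

section bridge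

variable {K : Type} [Field K] [NumberField K] {n g : ℕ}
  {X : Set (MvPolynomial (Fin n) (𝓞 K))} {S : Finset (HeightOneSpectrum (𝓞 K))}
  {α : HeightOneSpectrum (𝓞 K) → Fin (2 * g) → ℂ}

/-- the parameters, completed by zeros at the primes in `S` -/
noncomputable def ext (S : Finset (HeightOneSpectrum (𝓞 K)))
    (α : HeightOneSpectrum (𝓞 K) → Fin (2 * g) → ℂ) (v : HeightOneSpectrum (𝓞 K))
    (j : Fin (2 * g)) : ℂ := if v ∈ S then 0 else α v j

theorem temp (hα : ∀ v ∉ S, IsFrobenius X g v (α v)) (v : HeightOneSpectrum (𝓞 K))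
    (j : Fin (2 * g)) :
    ‖ext S α v j‖ ≤ (Ideal.absNorm v.asIdeal : ℝ) ^ (((1 : ℕ) : ℝ) / 2) := by
  have h1 : (Ideal.absNorm v.asIdeal : ℝ) ^ (((1 : ℕ) : ℝ) / 2) = √(Ideal.absNorm v.asIdeal) := by
    rw [Real.sqrt_eq_rpow]
    norm_num
  rw [h1]
  unfold ext
  split_ifs with hv
  · rw [norm_zero]
    positivity
  · exact ((hα v hv).2.1 j).le

theorem real (hα : ∀ v ∉ S, IsFrobenius X g v (α v)) (v : HeightOneSpectrum (𝓞 K)) (k : ℕ) :
    (∑ j, ext S α v j ^ (k + 1)).im = 0 := by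
  unfold ext
  split_ifs with hv
  · simp
  · exact Pool.Agent.N41.RM.psum_real_of_stable
      (Pool.Agent.R409.RA.conj_stable (hα v hv).1) _

theorem LFun_eq (s : ℂ) : LFun S α s = ∏' v : HeightOneSpectrum (𝓞 K),
    ∏ j, (1 - ext S α v j * (Ideal.absNorm v.asIdeal : ℂ) ^ (-s))⁻¹ := by
  unfold LFun ext
  refine tprod_congr fun v => ?_
  split_ifs with hv
  · simp
  · rfl

theorem points_eq (hα : ∀ v ∉ S, IsFrobenius X g v (α v)) {v : HeightOneSpectrum (𝓞 K)}
    (hv : v ∉ S) {e : ℕ} (he : 1 ≤ e) : ((points X v e : ℝ) : ℂ) = ∏ j, (1 - α v j ^ e) := by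
  obtain ⟨κ, i1, i2, φ, h1, h2, h3⟩ := Pool.Agent.N41.RM.fcone_eq X v he
  have h4 := (hα v hv).2.2 κ φ e h1 h2
  have hq : (2 : ℝ) ≤ Ideal.absNorm v.asIdeal := Pool.Agent.R409.RA.two_le v
  have h5 : points X v e = (Pool.Agent.N41.RM.fcone X v e : ℝ) /
      ((Ideal.absNorm v.asIdeal : ℝ) ^ e - 1) := rfl
  have h6 : ((Ideal.absNorm v.asIdeal : ℂ) ^ e - 1) ≠ 0 := by
    have h7 : (1 : ℝ) < (Ideal.absNorm v.asIdeal : ℝ) ^ e :=
      one_lt_pow₀ (by linarith) (by omega)
    have h8 : ((Ideal.absNorm v.asIdeal : ℝ) ^ e - 1) ≠ 0 := by linarith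
    exact_mod_cast h8
  rw [h5, h3]
  push_cast
  rw [h4]
  field_simp

theorem term_eq (hα : ∀ v ∉ S, IsFrobenius X g v (α v)) (γ T : ℝ)
    (x : HeightOneSpectrum (𝓞 K) × ℕ) :
    ptTerm X g S γ T x = Pool.Agent.N41.RM.pterm Pool.Agent.N41.RM.qv
      (Pool.Agent.N41.RM.av 1 (ext S α)) γ T x := by
  have hq : (2 : ℝ) ≤ Ideal.absNorm x.1.asIdeal := Pool.Agent.R409.RA.two_le x.1
  unfold ptTerm Pool.Agent.N41.RM.pterm
  split_ifs with hv
  · have h1 : ∀ j, Pool.Agent.N41.RM.av 1 (ext S α) x.1 j = 0 := by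
      intro j
      unfold Pool.Agent.N41.RM.av ext
      rw [if_pos hv, zero_div]
    simp [h1]
  · have h0 : 0 ≤ points X x.1 (x.2 + 1) := by
      unfold points
      refine div_nonneg (Nat.cast_nonneg _) ?_
      have := one_le_pow₀ (n := x.2 + 1) (by linarith : (1 : ℝ) ≤ Ideal.absNorm x.1.asIdeal)
      linarith
    have h1 := Pool.Agent.N41.RM.log_points_pow (g := g) (q := (Ideal.absNorm x.1.asIdeal : ℝ))
      (α := α x.1) (by linarith) (hα x.1 hv).2.1
      (Pool.Agent.R409.RA.conj_stable (hα x.1 hv).1) (e := x.2 + 1) (by omega) h0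
      (points_eq hα hv (by omega))
    have h2 : ∀ j, Pool.Agent.N41.RM.av 1 (ext S α) x.1 j =
        α x.1 j / ((Ideal.absNorm x.1.asIdeal : ℝ) : ℂ) := by
      intro j
      unfold Pool.Agent.N41.RM.av ext
      rw [if_neg hv, pow_one, Complex.ofReal_natCast]
    have h3 : (∑ y ∈ (x.2 + 1).divisorsAntidiagonal,
        ((μ y.1 : ℤ) : ℂ) * om γ (y.2 * Real.log (Ideal.absNorm x.1.asIdeal : ℝ) / T)) =
        Pool.Agent.N41.RM.mb (fun n => Pool.Agent.N41.RM.omt γ T
          (n * Real.log (Pool.Agent.N41.RM.qv x.1))) (x.2 + 1) := by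
      unfold Pool.Agent.N41.RM.mb
      refine Finset.sum_congr rfl fun y _ => ?_
      unfold om Pool.Agent.N41.RM.omt Pool.Agent.N41.RM.qv
      rw [div_eq_mul_inv (Complex.exp _)]
      push_cast
      rfl
    rw [h1, h3]
    simp_rw [h2]
    push_cast
    rfl

theorem sum_eq (hα : ∀ v ∉ S, IsFrobenius X g v (α v)) (γ : ℝ) {T : ℝ} (hT : 0 < T) :
    ptSum X g S γ T = Pool.Agent.N41.RM.rmn Pool.Agent.N41.RM.qv
      (Pool.Agent.N41.RM.av 1 (ext S α)) γ T := by
  have E := Pool.Agent.N41.RM.en_nf (m := 1) (i := 1) rfl (temp hα) (real hα)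
  rw [← E.tsum_pterm γ hT]
  unfold ptSum
  exact tsum_congr fun x => term_eq hα γ T x

end bridge

/-- **The leading-term formula as a limit of products of the numbers of points.**  Let `A` be the abelian
variety of dimension `g` over the number field `K` defined by the homogeneous polynomials `X`, `S` a
finite set of primes which contains the primes of bad reduction, `α_v` the eigenvalues of Frobenius
for `v ∉ S`, `F` a continuation of `L(A, s) = ∏_{v ∉ S} P_v(q_v^{-s})⁻¹` along the segment `[1, 3/2]` and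
`γ > π/2`.  Then

* `W_γ(T)` converges absolutely for `T > 0`;
* `F` has an order `r` and a real leading coefficient `l ≠ 0` at `1`, and
  `W_γ(T) = r (log T - Λ_γ) - log |l| + π e i + O(1/T)`;
* for every integer `ρ` and every real `B ≠ 0` the following are equivalent:
  `lim_{s → 1} (s - 1)^{-ρ} F(s) = B`; `F` has order `ρ` and leading coefficient `B` at `1`;
  `exp W_γ(T) / T^ρ → e^{-ρΛ_γ} / B` as `T → ∞`; the same for one sequence `T_n → ∞`. -/
theorem law (K : Type) [Field K] [NumberField K] (n g : ℕ)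
    (X : Set (MvPolynomial (Fin n) (𝓞 K))) (S : Finset (HeightOneSpectrum (𝓞 K)))
    (α : HeightOneSpectrum (𝓞 K) → Fin (2 * g) → ℂ) (hα : ∀ v ∉ S, IsFrobenius X g v (α v))
    (F : ℂ → ℂ) (hF : IsContinuation S α F) (γ : ℝ) (hγ : Real.pi / 2 < γ) :
    (∀ T : ℝ, 0 < T → Summable fun x => ‖ptTerm X g S γ T x‖) ∧
    (∃ (r : ℤ) (l : ℝ), meromorphicOrderAt F 1 = r ∧ meromorphicTrailingCoeffAt F 1 = l ∧ l ≠ 0 ∧
      (fun T : ℝ => ptSum X g S γ T - (r * (Real.log T - Lam γ) - Real.log |l| +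
        Real.pi * excess F * Complex.I)) =O[atTop] (fun T : ℝ => 1 / T)) ∧
    ∀ (ρ : ℤ) (B : ℝ), B ≠ 0 → List.TFAE [
      Tendsto (fun s : ℂ => (s - 1) ^ (-ρ) * F s) (𝓝[≠] 1) (𝓝 (B : ℂ)),
      meromorphicOrderAt F 1 = ρ ∧ meromorphicTrailingCoeffAt F 1 = B,
      Tendsto (quot X g S γ ρ) atTop (𝓝 (Complex.exp (-(ρ * Lam γ)) / B)),
      ∃ t : ℕ → ℝ, Tendsto t atTop atTop ∧
        Tendsto (fun k => quot X g S γ ρ (t k)) atTop (𝓝 (Complex.exp (-(ρ * Lam γ)) / B))] := by
  have h1 := temp hα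
  have h2 := real hα
  have hmer : MeromorphicAt F 1 := by
    have := hF.1 1 le_rfl (by norm_num)
    rwa [Complex.ofReal_one] at this
  obtain ⟨r, l, e1, e2, e3, e4, e5⟩ := Pool.Agent.N41.RM.nf_law (m := 1) (i := 1) rfl h1 h2 (F := F)
    (fun x hx hx2 => hF.1 x (by simpa using hx) (by
      have : ((1 : ℕ) : ℝ) + 1 / 2 = 3 / 2 := by norm_num
      linarith))
    (fun s hs => by
      rw [← LFun_eq]
      refine hF.2 s ?_
      have : ((1 : ℕ) : ℝ) + 1 / 2 = 3 / 2 := by norm_num
      linarith) hγ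
  rw [Nat.cast_one] at e1 e2
  have hL : Lam γ = Pool.Agent.W187.UR.Lam γ := rfl
  have hex : excess F = Pool.Agent.N41.RM.excess F ((1 : ℕ) : ℝ) := by
    unfold excess Pool.Agent.N41.RM.excess
    rw [Nat.cast_one]
  have e6 : Tendsto (fun T : ℝ => Complex.exp (ptSum X g S γ T) / (T : ℂ) ^ r) atTop
      (𝓝 (Complex.exp (-(r * Pool.Agent.W187.UR.Lam γ)) / l)) := by
    refine e5.congr' ?_
    filter_upwards [eventually_gt_atTop 0] with T hT
    rw [sum_eq hα γ hT]
  refine ⟨fun T hT => ?_, ⟨r, l, e1, e2, e3, ?_⟩, fun ρ B hB => ?_⟩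
  · have E := Pool.Agent.N41.RM.en_nf (m := 1) (i := 1) rfl h1 h2
    refine (E.pterm_summable γ hT).congr fun x => ?_
    rw [term_eq hα]
  · refine e4.congr' ?_ EventuallyEq.rfl
    filter_upwards [eventually_gt_atTop 0] with T hT
    rw [sum_eq hα γ hT, hL, hex]
  · have hBc : (B : ℂ) ≠ 0 := by exact_mod_cast hB
    tfae_have 1 → 2 := fun h3 => Pool.Agent.N41.RM.order_of_lim hmer hBc h3
    tfae_have 2 → 1 := fun h3 => Pool.Agent.N41.RM.lim_of_order hmer h3.1 h3.2
    tfae_have 2 → 3 := by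
      rintro ⟨h3, h4⟩
      rw [e1] at h3
      rw [e2] at h4
      have h5 : r = ρ := by exact_mod_cast h3
      have h6 : l = B := by exact_mod_cast h4
      subst h5
      subst h6
      exact e6
    tfae_have 3 → 4 := by
      intro h3
      exact ⟨fun k => (k : ℝ), tendsto_natCast_atTop_atTop, h3.comp tendsto_natCast_atTop_atTop⟩
    tfae_have 4 → 2 := by
      rintro ⟨t, ht, h3⟩
      obtain ⟨h4, h5⟩ := Pool.Agent.N41.RM.iff_abs e3 e6 ρ hB ht h3
      rw [e1, e2, h4, h5]
      exact ⟨rfl, rfl⟩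
    tfae_finish

section idx

variable {K : Type} [Field K] [NumberField K] {n : ℕ}

/-- `N(T) = c² T exp(-Λ_γ - W_γ(T)) / B`. -/
noncomputable def idx (X : Set (MvPolynomial (Fin n) (𝓞 K)))
    (S : Finset (HeightOneSpectrum (𝓞 K))) (γ : ℝ) (c : ℤ) (B T : ℝ) : ℂ :=
  (c : ℂ) ^ 2 * T * Complex.exp (-Lam γ - ptSum X 1 S γ T) / B

end idx

/-- **The square of the Heegner index from the numbers of points.**  Let `E` be the elliptic curve over the
number field `K` defined by the homogeneous polynomials `X`, `S` a finite set of primes which contains the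
primes of bad reduction, `α_v` the eigenvalues of Frobenius for `v ∉ S`, `F` a continuation of
`L_S(E/K, s)` along the segment `[1, 3/2]`, `γ > π/2`, `B ≠ 0` real and `c ≠ 0` an integer.  Then

* `W_γ(T)` converges absolutely for `T > 0`;
* for every real `m ≠ 0` the following are equivalent: `F` has order one and leading coefficient
  `(m / c²) B` at `1`; `N(T) → m` as `T → ∞`; `N(T_n) → m` for one sequence `T_n → ∞`; and then
  `N(T) = m + O(1/T)`;
* if `F` has order one and leading coefficient `(m / c²) B` for an integer `m ≠ 0`, then the integer nearest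
  to `Re N(T)` is `m` for all large `T`, and for every prime `p` and every rational number `t` the
  equality of the `p`-adic valuations of `m / c²` and `t` is equivalent to the same equality with the
  nearest integer to `Re N(T)` for `m`, for all large `T`, and to the same for arbitrarily large `T`. -/
theorem result (K : Type) [Field K] [NumberField K] (n : ℕ)
    (X : Set (MvPolynomial (Fin n) (𝓞 K))) (S : Finset (HeightOneSpectrum (𝓞 K)))
    (α : HeightOneSpectrum (𝓞 K) → Fin (2 * 1) → ℂ) (hα : ∀ v ∉ S, IsFrobenius X 1 v (α v))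
    (F : ℂ → ℂ) (hF : IsContinuation S α F) (γ : ℝ) (hγ : Real.pi / 2 < γ)
    (B : ℝ) (hB : B ≠ 0) (c : ℤ) (hc : c ≠ 0) :
    (∀ T : ℝ, 0 < T → Summable fun x => ‖ptTerm X 1 S γ T x‖) ∧
    (∀ m : ℝ, m ≠ 0 → List.TFAE [
      meromorphicOrderAt F 1 = 1 ∧ meromorphicTrailingCoeffAt F 1 = (m / c ^ 2 * B : ℝ),
      (fun T : ℝ => idx X S γ c B T - m) =O[atTop] (fun T : ℝ => 1 / T),
      Tendsto (idx X S γ c B) atTop (𝓝 m),
      ∃ t : ℕ → ℝ, Tendsto t atTop atTop ∧
        Tendsto (fun k => idx X S γ c B (t k)) atTop (𝓝 m)]) ∧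
    ∀ m : ℤ, m ≠ 0 → meromorphicOrderAt F 1 = 1 →
      meromorphicTrailingCoeffAt F 1 = ((m : ℝ) / c ^ 2 * B : ℝ) →
      (∀ᶠ T : ℝ in atTop, round (idx X S γ c B T).re = m) ∧
      ∀ (p : ℕ) (t : ℚ), List.TFAE [
        padicValRat p (m / c ^ 2) = padicValRat p t,
        ∀ᶠ T : ℝ in atTop,
          padicValRat p ((round (idx X S γ c B T).re : ℤ) / c ^ 2) = padicValRat p t,
        ∃ᶠ T : ℝ in atTop,
          padicValRat p ((round (idx X S γ c B T).re : ℤ) / c ^ 2) = padicValRat p t] := by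
  obtain ⟨h1, ⟨r, l, e1, e2, e3, e4⟩, h3⟩ := law K n 1 X S α hα F hF γ hγ
  have hcc : (c : ℂ) ≠ 0 := by exact_mod_cast hc
  have hcr : (c : ℝ) ≠ 0 := by exact_mod_cast hc
  have hBc : (B : ℂ) ≠ 0 := by exact_mod_cast hB
  have key : ∀ m : ℝ, m ≠ 0 → List.TFAE [
      meromorphicOrderAt F 1 = 1 ∧ meromorphicTrailingCoeffAt F 1 = (m / c ^ 2 * B : ℝ),
      (fun T : ℝ => idx X S γ c B T - m) =O[atTop] (fun T : ℝ => 1 / T),
      Tendsto (idx X S γ c B) atTop (𝓝 m),
      ∃ t : ℕ → ℝ, Tendsto t atTop atTop ∧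
        Tendsto (fun k => idx X S γ c B (t k)) atTop (𝓝 m)] := by
    intro m hm
    have hB' : (m / c ^ 2 * B : ℝ) ≠ 0 := by positivity
    have hmc : (m : ℂ) ≠ 0 := by exact_mod_cast hm
    have h4 := h3 1 (m / c ^ 2 * B) hB'
    have hT1 : (fun T : ℝ => 1 / T) =ᶠ[atTop] fun T : ℝ => T⁻¹ := by
      filter_upwards with T
      rw [one_div]
    -- relation between the two quantities
    have hrel : ∀ T : ℝ, T ≠ 0 → idx X S γ c B T =
        (quot X 1 S γ 1 T)⁻¹ * ((c : ℂ) ^ 2 * Complex.exp (-Lam γ) / B) := by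
      intro T hT
      have hTc : (T : ℂ) ≠ 0 := by exact_mod_cast hT
      unfold idx quot
      rw [zpow_one, sub_eq_add_neg, Complex.exp_add, Complex.exp_neg (ptSum X 1 S γ T), inv_div]
      field_simp
    have hval : ((Complex.exp (-(((1 : ℤ) : ℂ) * Lam γ)) / ((m / c ^ 2 * B : ℝ) : ℂ))⁻¹ *
        ((c : ℂ) ^ 2 * Complex.exp (-Lam γ) / B)) = (m : ℂ) := by
      have hexp : Complex.exp (-Lam γ) ≠ 0 := Complex.exp_ne_zero _
      push_cast
      rw [one_mul, inv_div]
      field_simp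
    have hne : Complex.exp (-(((1 : ℤ) : ℂ) * Lam γ)) / ((m / c ^ 2 * B : ℝ) : ℂ) ≠ 0 :=
      div_ne_zero (Complex.exp_ne_zero _) (by exact_mod_cast hB')
    have hlim : ∀ {ι : Type} {f : Filter ι} (t : ι → ℝ), Tendsto t f atTop →
        (Tendsto (fun k => idx X S γ c B (t k)) f (𝓝 m) ↔
        Tendsto (fun k => quot X 1 S γ 1 (t k)) f
          (𝓝 (Complex.exp (-(((1 : ℤ) : ℂ) * Lam γ)) / ((m / c ^ 2 * B : ℝ) : ℂ)))) := by
      intro ι f t ht
      have hev : (fun k => idx X S γ c B (t k)) =ᶠ[f] fun k =>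
          (quot X 1 S γ 1 (t k))⁻¹ * ((c : ℂ) ^ 2 * Complex.exp (-Lam γ) / B) := by
        filter_upwards [ht.eventually_ne_atTop 0] with k hk
        exact hrel _ hk
      rw [tendsto_congr' hev]
      have hC : ((c : ℂ) ^ 2 * Complex.exp (-Lam γ) / B) ≠ 0 :=
        div_ne_zero (mul_ne_zero (pow_ne_zero _ hcc) (Complex.exp_ne_zero _)) hBc
      constructor
      · intro h5
        have h6 := (h5.mul_const (((c : ℂ) ^ 2 * Complex.exp (-Lam γ) / B)⁻¹)).inv₀
          (mul_ne_zero hmc (inv_ne_zero hC))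
        refine (h6.congr fun k => ?_).trans (le_of_eq ?_)
        · rw [mul_assoc, mul_inv_cancel₀ hC, mul_one, inv_inv]
        · congr 1
          rw [← hval, mul_assoc, mul_inv_cancel₀ hC, mul_one, inv_inv]
      · intro h5
        have h6 := (h5.inv₀ hne).mul_const ((c : ℂ) ^ 2 * Complex.exp (-Lam γ) / B)
        rwa [hval] at h6
    tfae_have 1 → 2 := by
      rintro ⟨h5, h6⟩
      rw [e1] at h5
      rw [e2] at h6
      have h7 : r = 1 := by exact_mod_cast h5
      have h8 : l = m / c ^ 2 * B := by exact_mod_cast h6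
      subst h7
      have h12 := h4.out 1 2
      have hlimm : Tendsto (idx X S γ c B) atTop (𝓝 m) := by
        refine (hlim (fun T : ℝ => T) tendsto_id).2 ?_
        exact h12.1 ⟨by rw [e1], by rw [e2, h8]⟩
      obtain ⟨δ, hδ⟩ : ∃ δ : ℝ → ℂ, δ = fun T : ℝ => ptSum X 1 S γ T -
        (((1 : ℤ) : ℂ) * (Real.log T - Lam γ) - Real.log |l| + Real.pi * excess F * Complex.I) :=
        ⟨_, rfl⟩
      have hδO : δ =O[atTop] (fun T : ℝ => 1 / T) := by
        rw [hδ]
        exact e4
      have h9 : Tendsto (fun T : ℝ => 1 / T) atTop (𝓝 0) := by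
        simpa [one_div] using tendsto_inv_atTop_zero (𝕜 := ℝ)
      have hδ0 : Tendsto δ atTop (𝓝 0) := hδO.trans_tendsto h9
      obtain ⟨C, hC⟩ : ∃ C : ℂ, C = (c : ℂ) ^ 2 *
        Complex.exp ((Real.log |l| : ℝ) - Real.pi * excess F * Complex.I) / B := ⟨_, rfl⟩
      have hform : ∀ T : ℝ, 0 < T → idx X S γ c B T = C * Complex.exp (-δ T) := by
        intro T hT
        have h10 : Complex.exp ((Real.log T : ℝ) : ℂ) = T := by
          rw [← Complex.ofReal_exp, Real.exp_log hT]
        have hTc : (T : ℂ) ≠ 0 := by exact_mod_cast hT.ne'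
        have h11 : -Lam γ - ptSum X 1 S γ T = -((Real.log T : ℝ) : ℂ) +
            ((Real.log |l| : ℝ) - Real.pi * excess F * Complex.I) + (-δ T) := by
          rw [hδ]
          push_cast
          ring
        unfold idx
        rw [h11, Complex.exp_add, Complex.exp_add, Complex.exp_neg ((Real.log T : ℝ) : ℂ), h10, hC]
        field_simp
      have hCm : C = m := by
        have h10 : Tendsto (idx X S γ c B) atTop (𝓝 (C * Complex.exp (-0))) := by
          have h11 : Tendsto (fun T : ℝ => C * Complex.exp (-δ T)) atTop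
              (𝓝 (C * Complex.exp (-0))) :=
            ((Complex.continuous_exp.tendsto _).comp hδ0.neg).const_mul C
          refine h11.congr' ?_
          filter_upwards [eventually_gt_atTop 0] with T hT
          exact (hform T hT).symm
        rw [neg_zero, Complex.exp_zero, mul_one] at h10
        exact tendsto_nhds_unique h10 hlimm
      have hb : (fun T : ℝ => idx X S γ c B T - m) =O[atTop] δ := by
        refine Asymptotics.IsBigO.of_bound (‖(m : ℂ)‖ * 2) ?_
        have h10 : ∀ᶠ T : ℝ in atTop, ‖δ T‖ < 1 := by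
          have := (tendsto_zero_iff_norm_tendsto_zero.1 hδ0).eventually_lt_const one_pos
          exact this
        filter_upwards [eventually_gt_atTop 0, h10] with T hT h11
        rw [hform T hT, hCm, show (m : ℂ) * Complex.exp (-δ T) - m =
          m * (Complex.exp (-δ T) - 1) by ring, norm_mul, mul_assoc]
        refine mul_le_mul_of_nonneg_left ?_ (norm_nonneg _)
        have h12 := Complex.norm_exp_sub_one_le (x := -δ T) (by rw [norm_neg]; exact h11.le)
        rwa [norm_neg] at h12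
      exact hb.trans hδO
    tfae_have 2 → 3 := by
      intro h5
      have h6 : Tendsto (fun T : ℝ => 1 / T) atTop (𝓝 0) := by
        simpa [one_div] using tendsto_inv_atTop_zero (𝕜 := ℝ)
      have h7 := (h5.trans_tendsto h6).add_const (m : ℂ)
      simpa using h7
    tfae_have 3 → 4 := by
      intro h5
      exact ⟨fun k => (k : ℝ), tendsto_natCast_atTop_atTop, h5.comp tendsto_natCast_atTop_atTop⟩
    tfae_have 4 → 1 := by
      rintro ⟨t, ht, h5⟩
      have h31 := h4.out 3 1
      have h6 := h31.1 ⟨t, ht, (hlim t ht).1 h5⟩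
      exact ⟨by exact_mod_cast h6.1, h6.2⟩
    tfae_finish
  refine ⟨h1, key, fun m hm ho hl => ?_⟩
  have h02 := (key m (by exact_mod_cast hm)).out 0 2
  have hlimm : Tendsto (idx X S γ c B) atTop (𝓝 ((m : ℝ) : ℂ)) := h02.1 ⟨ho, hl⟩
  have hre : Tendsto (fun T : ℝ => (idx X S γ c B T).re) atTop (𝓝 (m : ℝ)) := by
    have h5 := (Complex.continuous_re.tendsto _).comp hlimm
    rw [Complex.ofReal_re] at h5
    exact h5
  have hround : ∀ᶠ T : ℝ in atTop, round (idx X S γ c B T).re = m := by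
    have h5 : ∀ᶠ T : ℝ in atTop, |(idx X S γ c B T).re - m| < 1 / 2 := by
      have := (Metric.tendsto_atTop'.1 hre) (1 / 2) (by norm_num)
      obtain ⟨N, hN⟩ := this
      filter_upwards [eventually_gt_atTop N] with T hT
      have := hN T hT
      rwa [Real.dist_eq] at this
    filter_upwards [h5] with T hT
    rw [round_eq, Int.floor_eq_iff]
    rw [abs_lt] at hT
    constructor <;> linarith
  refine ⟨hround, fun p t => ?_⟩
  tfae_have 1 → 2 := by
    intro h5
    filter_upwards [hround] with T hT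
    rw [hT]
    exact h5
  tfae_have 2 → 3 := fun h5 => h5.frequently
  tfae_have 3 → 1 := by
    intro h5
    obtain ⟨T, hT1, hT2⟩ := (h5.and_eventually hround).exists
    rw [hT2] at hT1
    exact hT1
  tfae_finish

end Pool.Agent.Results.MP_23455a_nt.IndexFromPointCounts
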