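import Pool.Agent.N522.TW.Defs

/-!
# MP_23455a_nt: the `p`-part of BSD over imaginary quadratic fields in a quadratic twist family
-/

open Pool.Agent.N522.TW

/-- Fix an odd prime `p` and a quadratic twist family `E^a` of elliptic curves over `ℚ`.
(1) The identity `(*)` holds for all `E^a` and all imaginary quadratic fields with analytic rank one
if and only if the defects of the BSD formula over `ℚ` are `c` in rank one and `-c` in rank zero on
each of the two classes `First`, `Second` (with a constant for each class).
(2) If BSD at `p` holds for one member of each class, then Q1 for the family is equivalent to BSD at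
`p` over `ℚ` for all members of analytic rank at most one. -/
theorem Pool.Agent.Results.MP_23455a_nt.TwistFamilies.result :
    ∀ F : Family, Facts F →
      (Q1 F ↔ (∃ c, ConstOn F (First F) c) ∧ ∃ c, ConstOn F (Second F) c) ∧
      (∀ a b : ℚˣ, First F a → Second F b → F.defect a = 0 → F.defect b = 0 →
        (Q1 F ↔ BSD F)) :=
  fun F H => ⟨q1_iff_const F H, fun _ _ ha hb ha' hb' => q1_iff_bsd F H ha hb ha' hb'⟩
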